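import Pool.Agent.Helper84.TilesMain

/-!
No tile system is concentration programmable with failure probability `δ < 1/2` and assemblies of
size `n ^ o(1)`: with `K` tile types the exponent cannot be below `1 / (K - 1)`.

The model is defined in `Pool/Agent/Helper84/TilesDefs.lean`.
-/

namespace Pool.Agent.Results.MP_c103f8_lc.NoSmallAssemblies

open Pool.Agent.Helper84.Tiles
open scoped ENNReal NNReal

universe u

/-- Let `𝒯` be a tile system, `r` any function on its producible terminal assemblies and `ρ n`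
(`n : ℕ`) concentration assignments with `Pr[r(𝒯(ρ n)) = n] ≥ 1 - δ` for all `n`, where
`δ < 1/2`.  If `0 < ε` and `ε * (K - 1) < 1`, where `K` is the number of tile types of `𝒯`, then
`Pr[|dom 𝒯(ρ n)| < n ^ ε] < 1 - δ` for all `n` in a set of density one (so in particular for
infinitely many `n`). -/
theorem result {Λ : Type u} (𝒯 : TileSystem Λ) (δ ε : ℝ) (hδ : δ < 1 / 2) (hε : 0 < ε)
    (hK : ε * (𝒯.tiles.card - 1) < 1)
    (r : 𝒯.TerminalAssembly → ℕ) (ρ : ℕ → TileType Λ → ℝ≥0)
    (hr : ∀ n, ENNReal.ofReal (1 - δ) ≤ 𝒯.Pr (ρ n) (fun α => r α = n)) :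
    Filter.Tendsto (fun M : ℕ => ({n : ℕ | n < M ∧
      𝒯.Pr (ρ n) (fun α => (α.1.dom.ncard : ℝ) < (n : ℝ) ^ ε) < ENNReal.ofReal (1 - δ)}.ncard : ℝ)
        / M) Filter.atTop (nhds 1) :=
  𝒯.main δ ε hδ hε hK r ρ hr

end Pool.Agent.Results.MP_c103f8_lc.NoSmallAssemblies
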